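import Mathlib

/-! A four-state non-surjective range-2 cellular automaton whose shortest diamond has length 5. -/

namespace Pool.Agent.Results.MP_b60c25_lc.Counter

/-- the global map of the local rule `f` -/
def G {S : Type} (f : S → S → S) (c : ℤ → S) : ℤ → S := fun p => f (c p) (c (p + 1))

/-- the action on finite words -/
def act {S : Type} (f : S → S → S) : List S → List S
  | a :: b :: w => f a b :: act f (b :: w)
  | _ => []

/-- `f` has a diamond of length `l` -/
def Diamond {S : Type} (f : S → S → S) (l : ℕ) : Prop :=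
  ∃ (p s : S) (c c' : List S), c.length = l ∧ c'.length = l ∧ c ≠ c' ∧
    act f (p :: c ++ [s]) = act f (p :: c' ++ [s])

/-- the least length of a diamond -/
noncomputable def delta {S : Type} (f : S → S → S) : ℕ := sInf {l | 1 ≤ l ∧ Diamond f l}

/-- the largest `delta` of a non-surjective automaton with `n` states -/
noncomputable def D (n : ℕ) : ℕ :=
  sSup {k | ∃ f : Fin n → Fin n → Fin n, ¬ Function.Surjective (G f) ∧ delta f = k}

def f4 : Fin 4 → Fin 4 → Fin 4 := ![![0, 0, 1, 3], ![2, 2, 3, 1], ![1, 3, 0, 2], ![0, 1, 2, 3]]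

def g4 : Fin 4 → Fin 4 → ℕ := ![![6, 5, 3, 1], ![5, 6, 2, 3], ![3, 2, 7, 4], ![1, 3, 4, 7]]

theorem hg : ∀ a b c d, f4 a c = f4 b d →
    g4 a b ≤ g4 c d + 1 ∧ (c = d → a ≠ b → g4 a b ≤ 1) := by decide

theorem low (s : Fin 4) (u : List (Fin 4)) : ∀ (u' : List (Fin 4)) (a b : Fin 4),
    u.length = u'.length → a :: u ≠ b :: u' →
    act f4 (a :: u ++ [s]) = act f4 (b :: u' ++ [s]) → g4 a b ≤ u.length + 1 := by
  induction u with
  | nil =>
    intro u' a b h1 h2 h3
    cases u' with
    | nil =>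
      simp only [List.cons_append, List.nil_append, act, List.cons.injEq, and_true] at h3
      exact (hg a b s s h3).2 rfl (by simpa using h2)
    | cons _ _ => cases h1
  | cons c u ih =>
    intro u' a b h1 h2 h3
    cases u' with
    | nil => cases h1
    | cons d u' =>
      simp only [List.cons_append, act, List.cons.injEq] at h3
      by_cases e : c :: u = d :: u'
      · have := (hg a b c d h3.1).2 (List.cons.inj e).1 fun k => h2 (by rw [k, e])
        omega
      · have := ih u' c d (by simpa using h1) e h3.2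
        have := (hg a b c d h3.1).1
        simp only [List.length_cons]
        omega

theorem delta4 : delta f4 = 5 := by
  have m : 5 ∈ {l | 1 ≤ l ∧ Diamond f4 l} :=
    ⟨by omega, 0, 0, [0, 3, 3, 2, 3], [1, 2, 1, 1, 0], rfl, rfl, by decide, by decide⟩
  refine le_antisymm (Nat.sInf_le m) (le_csInf ⟨_, m⟩ ?_)
  rintro l ⟨_, p, s, c, c', rfl, h1, h2, h3⟩
  have := low s c c' p p h1.symm (by simpa using h2) h3
  have : ∀ p, 6 ≤ g4 p p := by decide
  have := this p
  omega

theorem nsurj : ¬ Function.Surjective (G f4) := by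
  intro h
  obtain ⟨c, hc⟩ := h fun p => if p = 1 then 1 else if p = 2 then 3 else if p = 4 then 2 else 0
  have key : ∀ a b c d e f : Fin 4, f4 a b = 0 → f4 b c = 1 → f4 c d = 3 → f4 d e = 0 →
      f4 e f ≠ 2 := by decide
  exact key (c 0) (c 1) (c 2) (c 3) (c 4) (c 5) (congrFun hc 0) (congrFun hc 1) (congrFun hc 2)
    (congrFun hc 3) (congrFun hc 4)

theorem result : (∃ f : Fin 4 → Fin 4 → Fin 4, ¬ Function.Surjective (G f) ∧ delta f = 5) ∧
    5 ≤ D 4 ∧ ∃ n, 2 ≤ n ∧ D n ≠ n - 1 := by
  have h : 5 ≤ D 4 := le_csSup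
    (((Set.finite_range (delta : (Fin 4 → Fin 4 → Fin 4) → ℕ)).subset
      (by rintro _ ⟨f, _, e⟩; exact ⟨f, e⟩)).bddAbove) ⟨f4, nsurj, delta4⟩
  exact ⟨⟨f4, nsurj, delta4⟩, h, 4, by omega, by omega⟩

end Pool.Agent.Results.MP_b60c25_lc.Counter
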